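import Pool.Agent.helper66.FB.Spec2

/-!
# FB project (MP_5ae64c_pr), modules H3 and H2: forests rooted at `B` which contain a given path
-/

set_option autoImplicit false

open scoped BigOperators Topology
open Filter MeasureTheory

namespace Pool.Agent.helper66.FB

open Finset
open Pool.Agent.helper72.UT (IsFor dep pth rt fors Reg lz PathTo nxt red)
open Pool.Agent.helper20.HP (ind HW W Par cc run lel lst lazyP tmix ustE height vol Setup CZ CP IsKer Zq)
open Pool.Agent.helper90.FN (EF glue dn sk avJ Hit BGoal)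

/-- the path `η` directed to `z`, `z` is mapped to `w` -/
def H3_F {V : Type} [DecidableEq V] (η : List V) (g : V → V) (z w : V) : V → V := fun x =>
  if x = z then w else if x ∈ η then
    (if z ∈ η.dropWhile (fun y => decide (y ≠ x)) then nxt η x else nxt η.reverse x) else g x

section
variable {V : Type} [DecidableEq V]

theorem H3_nxt {η : List V} (hn : η.Nodup) {l₁ l₂ : List V} {u v : V}
    (h : η = l₁ ++ u :: v :: l₂) : nxt η u = v := by
  unfold nxt
  rw [Pool.Agent.helper72.UT.dropWhile_eq_of_suffix (δ := v :: l₂) hn ⟨l₁, h.symm⟩]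
  simp

theorem H3_nxt_rev {η : List V} (hn : η.Nodup) {l₁ l₂ : List V} {u v : V}
    (h : η = l₁ ++ u :: v :: l₂) : nxt η.reverse v = u := by
  have hn2 : η.reverse.Nodup := List.nodup_reverse.mpr hn
  exact H3_nxt hn2 (l₁ := l₂.reverse) (l₂ := l₁.reverse) (by rw [h]; simp)

theorem H3_F_z (η : List V) (g : V → V) (z w : V) : H3_F η g z w z = w := by
  unfold H3_F; simp

theorem H3_F_out (η : List V) (g : V → V) (z w : V) (hz : z ∈ η) {x : V} (hx : x ∉ η) :
    H3_F η g z w x = g x := by
  unfold H3_F
  have h1 : x ≠ z := by rintro rfl; exact hx hz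
  rw [if_neg h1, if_neg hx]

theorem H3_F_a {η a b : List V} {z : V} (hn : η.Nodup) (hη : η = a ++ z :: b) (g : V → V) (w : V)
    {l₁ l₂ : List V} {u v : V} (h : a ++ [z] = l₁ ++ u :: v :: l₂) :
    H3_F η g z w u = v := by
  have h1 : η = l₁ ++ u :: v :: (l₂ ++ b) := by
    have : η = (a ++ [z]) ++ b := by rw [hη]; simp
    rw [this, h]; simp
  have hzmem : z ∈ v :: l₂ := by
    have h2 : (a ++ [z]).getLast? = some z := by simp
    rw [h] at h2
    rw [show l₁ ++ u :: v :: l₂ = (l₁ ++ [u]) ++ (v :: l₂) by simp, List.getLast?_append] at h2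
    have h3 : (v :: l₂).getLast? = some ((v :: l₂).getLast (by simp)) :=
      List.getLast?_eq_some_getLast (by simp)
    rw [h3] at h2
    have h4 : (v :: l₂).getLast (by simp) = z := by simpa using h2
    rw [← h4]
    exact List.getLast_mem _
  have hn' : (u :: v :: (l₂ ++ b)).Nodup := by
    rw [h1] at hn
    exact (List.nodup_append.mp hn).2.1
  have huz : u ≠ z := by
    rintro rfl
    rw [List.nodup_cons] at hn'
    apply hn'.1
    rcases List.mem_cons.mp hzmem with h' | h'
    · rw [h']; simp
    · simp [h']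
  unfold H3_F
  rw [if_neg huz, if_pos (by rw [h1]; simp), if_pos, H3_nxt hn h1]
  rw [Pool.Agent.helper72.UT.dropWhile_eq_of_suffix (δ := v :: (l₂ ++ b)) hn ⟨l₁, h1.symm⟩]
  rcases List.mem_cons.mp hzmem with h' | h'
  · rw [h']; simp
  · simp [h']

theorem H3_F_b {η a b : List V} {z : V} (hn : η.Nodup) (hη : η = a ++ z :: b) (g : V → V) (w : V)
    {l₁ l₂ : List V} {u v : V} (h : z :: b = l₁ ++ u :: v :: l₂) :
    H3_F η g z w v = u := by
  have h1 : η = (a ++ l₁) ++ u :: v :: l₂ := by
    rw [hη, h]; simp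
  have hzmem : z ∈ l₁ ++ [u] := by
    cases l₁ with
    | nil =>
      rw [List.nil_append, List.cons.injEq] at h
      rw [h.1]; simp
    | cons c l =>
      rw [List.cons_append, List.cons.injEq] at h
      rw [h.1]; simp
  have hn' : ((l₁ ++ [u]) ++ (v :: l₂)).Nodup := by
    rw [h1, show (a ++ l₁) ++ u :: v :: l₂ = a ++ ((l₁ ++ [u]) ++ (v :: l₂)) by simp] at hn
    exact (List.nodup_append.mp hn).2.1
  have hz2 : z ∉ v :: l₂ := by
    intro hz
    exact (List.nodup_append.mp hn').2.2 z hzmem z hz rfl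
  have hvz : v ≠ z := by
    rintro rfl
    exact hz2 (by simp)
  unfold H3_F
  rw [if_neg hvz, if_pos (by rw [h1]; simp), if_neg, H3_nxt_rev hn h1]
  have h2 : η = (a ++ l₁ ++ [u]) ++ (v :: l₂) := by rw [h1]; simp
  rw [Pool.Agent.helper72.UT.dropWhile_eq_of_suffix (δ := l₂) hn ⟨a ++ l₁ ++ [u], h2.symm⟩]
  exact hz2

omit [DecidableEq V] in
/-- along a chain -/
theorem H3_hit_a {f : V → V} {P : V → Prop} (hP : ∀ v, P (f v) → P v) (z : V) (hz : P z) :
    ∀ a : List V, (a ++ [z]).IsChain (fun u v => f u = v) → ∀ x ∈ a, P x := by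
  intro a
  induction a with
  | nil => intro _ x hx; simp at hx
  | cons c a ih =>
    intro hc x hx
    have hc2 : (a ++ [z]).IsChain (fun u v => f u = v) := by
      rw [List.cons_append] at hc
      exact hc.tail
    have ih' := ih hc2
    rcases List.mem_cons.mp hx with h | h
    · subst h
      cases a with
      | nil =>
        rw [List.cons_append, List.nil_append, List.isChain_cons_cons] at hc
        apply hP
        rw [hc.1]
        exact hz
      | cons d a =>
        rw [List.cons_append, List.cons_append, List.isChain_cons_cons] at hc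
        apply hP
        rw [hc.1]
        exact ih' d (by simp)
    · exact ih' x h

omit [DecidableEq V] in
theorem H3_hit_b {f : V → V} {P : V → Prop} (hP : ∀ v, P (f v) → P v) :
    ∀ (b : List V) (z : V), P z → (z :: b).IsChain (fun u v => f v = u) → ∀ x ∈ b, P x := by
  intro b
  induction b with
  | nil => intro _ _ _ x hx; simp at hx
  | cons c b ih =>
    intro z hz hc x hx
    rw [List.isChain_cons_cons] at hc
    have hPc : P c := by
      apply hP
      rw [hc.1]
      exact hz
    rcases List.mem_cons.mp hx with h | h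
    · rw [h]; exact hPc
    · exact ih c hPc hc.2 x h

variable {G : SimpleGraph V} {B : Finset V} {f g : V → V}

theorem H3_dep_le (hf : IsFor G B f) (v : V) : dep B f (f v) ≤ dep B f v := by
  by_cases hv : v ∈ B
  · rw [hf.fix v hv]
  · rw [Pool.Agent.helper72.UT.dep_not_mem hv (hf.hit v)]
    omega

theorem H3_dep_iter (hf : IsFor G B f) (v : V) (n : ℕ) : dep B f (f^[n] v) ≤ dep B f v := by
  induction n with
  | zero => simp
  | succ n ih =>
    rw [Function.iterate_succ_apply']
    exact (H3_dep_le hf _).trans ih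

theorem H3_no_return (hf : IsFor G B f) {z : V} (hz : z ∉ B) (n : ℕ) : f^[n + 1] z ≠ z := by
  intro h
  have h1 : dep B f (f^[n] (f z)) ≤ dep B f (f z) := H3_dep_iter hf (f z) n
  rw [← Function.iterate_succ_apply, h, Pool.Agent.helper72.UT.dep_not_mem hz (hf.hit z)] at h1
  omega

/-- the forest with the vertices of the path as roots -/
theorem H3_red (hf : IsFor G B f) (η : List V) : IsFor G (B ∪ η.toFinset) (red η f) := by
  refine ⟨?_, ?_, ?_⟩
  · intro v hv
    unfold red
    by_cases h : v ∈ η
    · rw [if_pos h]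
    · rw [if_neg h]
      rw [Finset.mem_union, List.mem_toFinset] at hv
      rcases hv with hv | hv
      · exact hf.fix v hv
      · exact absurd hv h
  · intro v hv
    rw [Finset.mem_union, List.mem_toFinset, not_or] at hv
    unfold red
    rw [if_neg hv.2]
    exact hf.adj v hv.1
  · intro v
    refine hf.ind (P := fun v => ∃ k, (red η f)^[k] v ∈ B ∪ η.toFinset) ?_ ?_ v
    · intro v hv
      exact ⟨0, by simp [hv]⟩
    · intro v _ ih
      by_cases h : v ∈ η
      · exact ⟨0, by simp [h]⟩
      · obtain ⟨k, hk⟩ := ih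
        refine ⟨k + 1, ?_⟩
        rw [Function.iterate_succ_apply]
        have : red η f v = f v := by unfold red; rw [if_neg h]
        rw [this]; exact hk

/-- the root is an iterate -/
theorem H3_rt_iter (hf : IsFor G B f) (η : List V) (v : V) :
    ∃ m, rt (B ∪ η.toFinset) (red η f) v = f^[m] v := by
  have hg := H3_red hf η
  refine hg.ind (P := fun v => ∃ m, rt (B ∪ η.toFinset) (red η f) v = f^[m] v) ?_ ?_ v
  · intro v hv
    exact ⟨0, by rw [Pool.Agent.helper72.UT.rt_mem hv]; simp⟩
  · intro v hv ih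
    obtain ⟨m, hm⟩ := ih
    rw [Pool.Agent.helper72.UT.rt_not_mem hv (hg.hit v), hm]
    rw [Finset.mem_union, List.mem_toFinset, not_or] at hv
    have : red η f v = f v := by unfold red; rw [if_neg hv.2]
    rw [this]
    exact ⟨m + 1, by rw [Function.iterate_succ_apply]⟩

theorem H3_fwd (hf : IsFor G B f) {η a b : List V} {z : V}
    (hη : η = a ++ z :: b) (hB : ∀ x ∈ η, x ∉ B)
    (h1 : (a ++ [z]).IsChain (fun u v => f u = v)) (h2 : (z :: b).IsChain (fun u v => f v = u)) :
    rt (B ∪ η.toFinset) (red η f) (f z) ∈ B := by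
  have hg := H3_red hf η
  have hz : z ∈ η := by rw [hη]; simp
  have hr := hg.rt_mem_B (f z)
  rw [Finset.mem_union] at hr
  rcases hr with hr | hr
  · exact hr
  · exfalso
    rw [List.mem_toFinset] at hr
    obtain ⟨m, hm⟩ := H3_rt_iter hf η (f z)
    rw [hm] at hr
    -- every vertex of the path leads to z
    have hP : ∀ v, (∃ k, f^[k] (f v) = z) → ∃ k, f^[k] v = z := by
      rintro v ⟨k, hk⟩
      exact ⟨k + 1, by rw [Function.iterate_succ_apply]; exact hk⟩
    have hall : ∀ x ∈ η, ∃ k, f^[k] x = z := by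
      intro x hx
      rw [hη, List.mem_append, List.mem_cons] at hx
      rcases hx with hx | hx | hx
      · exact H3_hit_a (P := fun v => ∃ k, f^[k] v = z) hP z ⟨0, rfl⟩ a h1 x hx
      · exact ⟨0, by rw [hx]; rfl⟩
      · exact H3_hit_b (P := fun v => ∃ k, f^[k] v = z) hP b z ⟨0, rfl⟩ h2 x hx
    obtain ⟨k, hk⟩ := hall _ hr
    apply H3_no_return hf (hB z hz) (k + m)
    rw [Function.iterate_succ_apply, Function.iterate_add_apply]
    exact hk

theorem H3_recover {η a b : List V} {z : V} (hn : η.Nodup) (hη : η = a ++ z :: b)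
    (h1 : (a ++ [z]).IsChain (fun u v => f u = v)) (h2 : (z :: b).IsChain (fun u v => f v = u)) :
    H3_F η (red η f) z (f z) = f := by
  funext x
  by_cases hx : x ∈ η
  · have hx' := hx
    rw [hη, List.mem_append, List.mem_cons] at hx'
    rcases hx' with h | h | h
    · obtain ⟨l₁, l₂, hl⟩ := List.append_of_mem h
      obtain ⟨v, l₃, hl₃⟩ : ∃ v l₃, l₂ ++ [z] = v :: l₃ := by
        cases l₂ with
        | nil => exact ⟨z, [], rfl⟩
        | cons c l => exact ⟨c, l ++ [z], rfl⟩
      have hd : a ++ [z] = l₁ ++ x :: v :: l₃ := by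
        rw [hl, ← hl₃]; simp
      rw [H3_F_a hn hη _ _ hd]
      rw [List.isChain_iff_forall_rel_of_append_cons_cons] at h1
      exact (h1 hd).symm
    · rw [h, H3_F_z]
    · obtain ⟨l₁, l₂, hl⟩ := List.append_of_mem h
      obtain ⟨u, l₀, hl₀⟩ : ∃ u l₀, z :: l₁ = l₀ ++ [u] := by
        have hne : z :: l₁ ≠ [] := by simp
        exact ⟨(z :: l₁).getLast hne, (z :: l₁).dropLast,
          (List.dropLast_append_getLast hne).symm⟩
      have hd : z :: b = l₀ ++ u :: x :: l₂ := by
        rw [hl, ← List.cons_append, hl₀]; simp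
      rw [H3_F_b hn hη _ _ hd]
      rw [List.isChain_iff_forall_rel_of_append_cons_cons] at h2
      exact (h2 hd).symm
  · have hz : z ∈ η := by rw [hη]; simp
    rw [H3_F_out _ _ _ _ hz hx]
    unfold red
    rw [if_neg hx]

theorem H3_F_chain_a {η a b : List V} {z : V} (hn : η.Nodup) (hη : η = a ++ z :: b) (g : V → V)
    (w : V) : (a ++ [z]).IsChain (fun u v => H3_F η g z w u = v) := by
  rw [List.isChain_iff_forall_rel_of_append_cons_cons]
  intro u v l₁ l₂ h
  exact H3_F_a hn hη g w h

theorem H3_F_chain_b {η a b : List V} {z : V} (hn : η.Nodup) (hη : η = a ++ z :: b) (g : V → V)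
    (w : V) : (z :: b).IsChain (fun u v => H3_F η g z w v = u) := by
  rw [List.isChain_iff_forall_rel_of_append_cons_cons]
  intro u v l₁ l₂ h
  exact H3_F_b hn hη g w h

theorem H3_bwd {η a b : List V} {z w : V} (hc : η.IsChain G.Adj) (hn : η.Nodup)
    (hη : η = a ++ z :: b) (hB : ∀ x ∈ η, x ∉ B) (hg : IsFor G (B ∪ η.toFinset) g)
    (hzw : G.Adj z w) (hw : rt (B ∪ η.toFinset) g w ∈ B) :
    IsFor G B (H3_F η g z w) := by
  have hz : z ∈ η := by rw [hη]; simp
  have ca := H3_F_chain_a hn hη g w
  have cb := H3_F_chain_b hn hη g w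
  set f : V → V := H3_F η g z w with hf
  have hfz : f z = w := H3_F_z η g z w
  have hfo : ∀ x, x ∉ η → f x = g x := fun x hx => H3_F_out η g z w hz hx
  have hP : ∀ v, (∃ k, f^[k] (f v) ∈ B) → ∃ k, f^[k] v ∈ B := by
    rintro v ⟨k, hk⟩
    exact ⟨k + 1, by rw [Function.iterate_succ_apply]; exact hk⟩
  have hitw : ∃ k, f^[k] w ∈ B := by
    have key : ∀ v, rt (B ∪ η.toFinset) g v ∈ B → ∃ k, f^[k] v ∈ B := by
      intro v
      refine hg.ind (P := fun v => rt (B ∪ η.toFinset) g v ∈ B → ∃ k, f^[k] v ∈ B) ?_ ?_ v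
      · intro v hv hr
        rw [Pool.Agent.helper72.UT.rt_mem hv] at hr
        exact ⟨0, by simpa using hr⟩
      · intro v hv ih hr
        rw [Pool.Agent.helper72.UT.rt_not_mem hv (hg.hit v)] at hr
        apply hP
        rw [Finset.mem_union, List.mem_toFinset, not_or] at hv
        rw [hfo v hv.2]
        exact ih hr
    exact key w hw
  have hitz : ∃ k, f^[k] z ∈ B := by
    apply hP
    rw [hfz]; exact hitw
  have hitη : ∀ x ∈ η, ∃ k, f^[k] x ∈ B := by
    intro x hx
    rw [hη, List.mem_append, List.mem_cons] at hx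
    rcases hx with hx | hx | hx
    · exact H3_hit_a (P := fun v => ∃ k, f^[k] v ∈ B) hP z hitz a ca x hx
    · rw [hx]; exact hitz
    · exact H3_hit_b (P := fun v => ∃ k, f^[k] v ∈ B) hP b z hitz cb x hx
  refine ⟨?_, ?_, ?_⟩
  · intro v hv
    have hvη : v ∉ η := fun h => hB v h hv
    rw [hfo v hvη]
    exact hg.fix v (by simp [hv])
  · intro v hv
    by_cases hvη : v ∈ η
    · have hvη' := hvη
      rw [hη, List.mem_append, List.mem_cons] at hvη'
      rcases hvη' with h | h | h
      · obtain ⟨l₁, l₂, hl⟩ := List.append_of_mem h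
        obtain ⟨v', l₃, hl₃⟩ : ∃ v l₃, l₂ ++ [z] = v :: l₃ := by
          cases l₂ with
          | nil => exact ⟨z, [], rfl⟩
          | cons c l => exact ⟨c, l ++ [z], rfl⟩
        have hd : a ++ [z] = l₁ ++ v :: v' :: l₃ := by
          rw [hl, ← hl₃]; simp
        have e1 : f v = v' := H3_F_a hn hη g w hd
        rw [e1]
        have h1 : η = l₁ ++ v :: v' :: (l₃ ++ b) := by
          have : η = (a ++ [z]) ++ b := by rw [hη]; simp
          rw [this, hd]; simp
        rw [List.isChain_iff_forall_rel_of_append_cons_cons] at hc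
        exact hc h1
      · rw [h, hfz]; exact hzw
      · obtain ⟨l₁, l₂, hl⟩ := List.append_of_mem h
        obtain ⟨u, l₀, hl₀⟩ : ∃ u l₀, z :: l₁ = l₀ ++ [u] := by
          have hne : z :: l₁ ≠ [] := by simp
          exact ⟨(z :: l₁).getLast hne, (z :: l₁).dropLast,
            (List.dropLast_append_getLast hne).symm⟩
        have hd : z :: b = l₀ ++ u :: v :: l₂ := by
          rw [hl, ← List.cons_append, hl₀]; simp
        have e1 : f v = u := H3_F_b hn hη g w hd
        rw [e1]
        have h1 : η = (a ++ l₀) ++ u :: v :: l₂ := by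
          rw [hη, hd]; simp
        rw [List.isChain_iff_forall_rel_of_append_cons_cons] at hc
        exact (hc h1).symm
    · rw [hfo v hvη]
      exact hg.adj v (by simp [hv, hvη])
  · intro v
    refine hg.ind (P := fun v => ∃ k, f^[k] v ∈ B) ?_ ?_ v
    · intro v hv
      rw [Finset.mem_union, List.mem_toFinset] at hv
      rcases hv with hv | hv
      · exact ⟨0, by simpa using hv⟩
      · exact hitη v hv
    · intro v hv ih
      rw [Finset.mem_union, List.mem_toFinset, not_or] at hv
      apply hP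
      rw [hfo v hv.2]
      exact ih

/-- the values on the path -/
theorem H3_F_mem {η a b : List V} {z : V} (hn : η.Nodup) (hη : η = a ++ z :: b) (g : V → V)
    (w : V) {x : V} (hx : x ∈ η) (hxz : x ≠ z) : H3_F η g z w x ∈ η := by
  have hx' := hx
  rw [hη, List.mem_append, List.mem_cons] at hx'
  rcases hx' with h | h | h
  · obtain ⟨l₁, l₂, hl⟩ := List.append_of_mem h
    obtain ⟨v', l₃, hl₃⟩ : ∃ v l₃, l₂ ++ [z] = v :: l₃ := by
      cases l₂ with
      | nil => exact ⟨z, [], rfl⟩
      | cons c l => exact ⟨c, l ++ [z], rfl⟩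
    have hd : a ++ [z] = l₁ ++ x :: v' :: l₃ := by
      rw [hl, ← hl₃]; simp
    rw [H3_F_a hn hη g w hd]
    have h1 : η = l₁ ++ x :: v' :: (l₃ ++ b) := by
      have : η = (a ++ [z]) ++ b := by rw [hη]; simp
      rw [this, hd]; simp
    rw [h1]; simp
  · exact absurd h hxz
  · obtain ⟨l₁, l₂, hl⟩ := List.append_of_mem h
    obtain ⟨u, l₀, hl₀⟩ : ∃ u l₀, z :: l₁ = l₀ ++ [u] := by
      have hne : z :: l₁ ≠ [] := by simp
      exact ⟨(z :: l₁).getLast hne, (z :: l₁).dropLast,
        (List.dropLast_append_getLast hne).symm⟩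
    have hd : z :: b = l₀ ++ u :: x :: l₂ := by
      rw [hl, ← List.cons_append, hl₀]; simp
    rw [H3_F_b hn hη g w hd]
    have h1 : η = (a ++ l₀) ++ u :: x :: l₂ := by
      rw [hη, hd]; simp
    rw [h1]; simp

theorem H3_red_F {η : List V} {z w : V} (hz : z ∈ η) (hg : IsFor G (B ∪ η.toFinset) g) :
    red η (H3_F η g z w) = g := by
  funext x
  unfold red
  by_cases hx : x ∈ η
  · rw [if_pos hx, hg.fix x (by simp [hx])]
  · rw [if_neg hx, H3_F_out η g z w hz hx]

end

section
variable {V : Type} [Fintype V] [DecidableEq V]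

open Classical in
/-- the count -/
theorem H3_count (G : SimpleGraph V) (B : Finset V) (η : List V) (hc : η.IsChain G.Adj)
    (hn : η.Nodup) (hB : ∀ x ∈ η, x ∉ B) :
    ((fors G B).filter (fun f => Cont f η)).card =
      (((fors G (B ∪ η.toFinset)) ×ˢ (η.toFinset ×ˢ (univ : Finset V))).filter
        (fun t => G.Adj t.2.1 t.2.2 ∧ rt (B ∪ η.toFinset) t.1 t.2.2 ∈ B)).card := by
  symm
  have hnot : ∀ (g : V → V) (w : V), rt (B ∪ η.toFinset) g w ∈ B → w ∉ η := by
    intro g w h hw
    have : w ∈ B ∪ η.toFinset := by simp [hw]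
    rw [Pool.Agent.helper72.UT.rt_mem this] at h
    exact hB w hw h
  refine Finset.card_bij (fun t _ => H3_F η t.1 t.2.1 t.2.2) ?_ ?_ ?_
  · rintro ⟨g, z, w⟩ ht
    rw [Finset.mem_filter, Finset.mem_product, Finset.mem_product] at ht
    obtain ⟨⟨hg, hz, _⟩, hzw, hr⟩ := ht
    simp only at hg hz hzw hr
    rw [Pool.Agent.helper72.UT.mem_fors] at hg
    rw [List.mem_toFinset] at hz
    obtain ⟨a, b, hη⟩ := List.append_of_mem hz
    rw [Finset.mem_filter, Pool.Agent.helper72.UT.mem_fors]
    refine ⟨H3_bwd hc hn hη hB hg hzw hr, a, z, b, hη, H3_F_chain_a hn hη g w,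
      H3_F_chain_b hn hη g w, ?_⟩
    simp only
    rw [H3_F_z]
    exact hnot g w hr
  · rintro ⟨g, z, w⟩ ht ⟨g', z', w'⟩ ht' he
    rw [Finset.mem_filter, Finset.mem_product, Finset.mem_product] at ht ht'
    obtain ⟨⟨hg, hz, _⟩, hzw, hr⟩ := ht
    obtain ⟨⟨hg', hz', _⟩, hzw', hr'⟩ := ht'
    simp only at hg hz hzw hr hg' hz' hzw' hr' he
    rw [Pool.Agent.helper72.UT.mem_fors] at hg hg'
    rw [List.mem_toFinset] at hz hz'
    obtain ⟨a, b, hη⟩ := List.append_of_mem hz
    have e1 : z = z' := by
      by_contra hne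
      have h1 : H3_F η g z w z' ∈ η := H3_F_mem hn hη g w hz' (Ne.symm hne)
      rw [he, H3_F_z] at h1
      exact hnot g' w' hr' h1
    subst e1
    have e2 : w = w' := by
      have := congrFun he z
      rwa [H3_F_z, H3_F_z] at this
    subst e2
    have e3 : g = g' := by
      rw [← H3_red_F (w := w) hz hg, he, H3_red_F hz hg']
    rw [e3]
  · intro f hf
    rw [Finset.mem_filter, Pool.Agent.helper72.UT.mem_fors] at hf
    obtain ⟨hfor, a, z, b, hη, h1, h2, hfz⟩ := hf
    have hz : z ∈ η := by rw [hη]; simp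
    refine ⟨(red η f, z, f z), ?_, H3_recover hn hη h1 h2⟩
    rw [Finset.mem_filter, Finset.mem_product, Finset.mem_product]
    refine ⟨⟨?_, ?_, Finset.mem_univ _⟩, hfor.adj z (hB z hz), H3_fwd hfor hη hB h1 h2⟩
    · rw [Pool.Agent.helper72.UT.mem_fors]
      exact H3_red hfor η
    · rw [List.mem_toFinset]; exact hz

end

theorem H3 (hX : HX_stmt) (h1 : H1_stmt) : H3_stmt := by
  classical
  intro V _ _ G d K hreg hK B y η hBne hη hBη u hu
  obtain ⟨green, _, _, uniq, _, _⟩ := hX V G d K hreg hK
  set D : Finset V := B ∪ η.toFinset with hD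
  have hDne : D.Nonempty := hBne.mono Finset.subset_union_left
  have hdisj : D \ B = η.toFinset := by
    ext x
    simp only [hD, Finset.mem_sdiff, Finset.mem_union, List.mem_toFinset]
    constructor
    · rintro ⟨h | h, h'⟩
      · exact absurd h h'
      · exact h
    · intro h
      exact ⟨Or.inr h, hBη x h⟩
  have hH := h1 V G d K hreg hK D B hDne Finset.subset_union_left
  rw [hdisj] at hH
  have hun : (B ∪ η.toFinset).Nonempty := hDne
  have hueq := uniq B η.toFinset hun u _ hu hH
  -- the number of forests is not zero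
  have hcard : ((fors G D).card : ℝ) ≠ 0 := by
    obtain ⟨b, hb⟩ := hBne
    have h2 := hu.one b hb
    rw [hueq] at h2
    intro h0
    unfold EF at h2
    simp only [h0, div_zero] at h2
    norm_num at h2
  have huv : ∀ v, ∑ g ∈ fors G D, ind (rt D g v ∈ B) = (fors G D).card * u v := by
    intro v
    rw [hueq]
    unfold EF
    field_simp
  have hdpos : (0 : ℝ) < d := by exact_mod_cast hreg.pos
  -- the energy
  have hsum0 : ∑ x, (u x - ∑ z, K.p x z * u z) = 0 := by
    rw [Finset.sum_sub_distrib, Finset.sum_comm]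
    have : ∀ z ∈ (univ : Finset V), ∑ x, K.p x z * u z = u z := by
      intro z _
      rw [← Finset.sum_mul]
      have h3 : ∑ x, K.p x z = 1 := by
        rw [← K.sum_one z]
        exact Finset.sum_congr rfl (fun x _ => K.symm x z)
      rw [h3, one_mul]
    rw [Finset.sum_congr rfl this, sub_self]
  have hdir : dir K u u = ∑ x ∈ η.toFinset, ∑ z, K.p x z * u z := by
    have e1 : dir K u u = ∑ x ∈ B, (u x - ∑ z, K.p x z * u z) := by
      rw [green u u]
      symm
      rw [← Finset.sum_subset (Finset.subset_univ B)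
        (f := fun x => u x * (u x - ∑ z, K.p x z * u z))]
      · apply Finset.sum_congr rfl
        intro x hx
        rw [hu.one x hx, one_mul]
      · intro x _ hx
        by_cases hx2 : x ∈ η.toFinset
        · rw [hu.zero x hx2, zero_mul]
        · rw [← hu.harm x hx hx2, sub_self, mul_zero]
    have e2 : ∑ x, (u x - ∑ z, K.p x z * u z) =
        ∑ x ∈ D, (u x - ∑ z, K.p x z * u z) := by
      symm
      apply Finset.sum_subset (Finset.subset_univ D)
      intro x _ hx
      rw [hD, Finset.mem_union, not_or] at hx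
      rw [← hu.harm x hx.1 hx.2, sub_self]
    have hdisj2 : Disjoint B η.toFinset := by
      rw [Finset.disjoint_left]
      intro x hx hx2
      exact hBη x (List.mem_toFinset.mp hx2) hx
    rw [hsum0, hD, Finset.sum_union hdisj2, ← e1] at e2
    have e3 : ∑ x ∈ η.toFinset, (u x - ∑ z, K.p x z * u z) =
        - ∑ x ∈ η.toFinset, ∑ z, K.p x z * u z := by
      rw [← Finset.sum_neg_distrib]
      apply Finset.sum_congr rfl
      intro x hx
      rw [hu.zero x hx, zero_sub]
    rw [e3] at e2
    linarith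
  have hnb : ∀ x ∈ η.toFinset, 2 * (d : ℝ) * ∑ z, K.p x z * u z =
      ∑ w, (if G.Adj x w then u w else 0) := by
    intro x hx
    rw [hK, Finset.mul_sum]
    have e1 : ∀ z ∈ (univ : Finset V), 2 * (d : ℝ) * (lz G d x z * u z) =
        (if x = z then d * u x else 0) + (if G.Adj x z then u z else 0) := by
      intro z _
      unfold lz
      by_cases h : x = z
      · subst h
        rw [if_pos rfl, if_pos rfl, if_neg (G.irrefl), if_neg (G.irrefl)]
        ring
      · rw [if_neg h, if_neg h]
        by_cases h2 : G.Adj x z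
        · rw [if_pos h2, if_pos h2]
          field_simp
          ring
        · rw [if_neg h2, if_neg h2]
          ring
    rw [Finset.sum_congr rfl e1, Finset.sum_add_distrib, Finset.sum_ite_eq]
    rw [if_pos (Finset.mem_univ _), hu.zero x hx, mul_zero, zero_add]
  -- the count
  have hcount := H3_count G B η hη.chain hη.nodup hBη
  have e4 : (((fors G B).filter (fun f => Cont f η)).card : ℝ) =
      ∑ g ∈ fors G D, ∑ z ∈ η.toFinset, ∑ w, (if G.Adj z w then ind (rt D g w ∈ B) else 0) := by
    rw [hcount, Finset.card_filter]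
    push_cast
    rw [Finset.sum_product]
    apply Finset.sum_congr rfl
    intro g _
    rw [Finset.sum_product]
    apply Finset.sum_congr rfl
    intro z _
    apply Finset.sum_congr rfl
    intro w _
    simp only
    unfold ind
    by_cases h1 : G.Adj z w
    · by_cases h2 : rt D g w ∈ B
      · rw [if_pos ⟨h1, h2⟩, if_pos h1, if_pos h2]
      · rw [if_neg (fun h => h2 h.2), if_pos h1, if_neg h2]
    · rw [if_neg (fun h => h1 h.1), if_neg h1]
  have e5 : ∑ g ∈ fors G D, ∑ z ∈ η.toFinset, ∑ w,
      (if G.Adj z w then ind (rt D g w ∈ B) else 0) =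
      (fors G D).card * ∑ z ∈ η.toFinset, ∑ w, (if G.Adj z w then u w else 0) := by
    rw [Finset.sum_comm, Finset.mul_sum]
    apply Finset.sum_congr rfl
    intro z _
    rw [Finset.sum_comm, Finset.mul_sum]
    apply Finset.sum_congr rfl
    intro w _
    by_cases h : G.Adj z w
    · simp only [if_pos h]
      exact huv w
    · simp only [if_neg h]
      simp
  have e6 : (((fors G B).filter (fun f => Cont f η)).card : ℝ) =
      2 * d * (fors G D).card * dir K u u := by
    rw [e4, e5, hdir, Finset.mul_sum, Finset.mul_sum]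
    apply Finset.sum_congr rfl
    intro z hz
    rw [← hnb z hz]
    ring
  convert e6 using 2

theorem H2 (hX : HX_stmt) (h1 : H1_stmt) : H2_stmt := by
  classical
  intro V _ _ G d K hreg hK R y hR hy u hu
  have h3 := H3 hX h1 V G d K hreg hK R y [y] hR ⟨by simp, by simp, by simp⟩
    (by intro x hx; rw [List.mem_singleton] at hx; rw [hx]; exact hy) (fun x => 1 - u x)
    ⟨?_, ?_, ?_⟩
  · have e1 : ((fors G R).filter (fun f => Cont f [y])) = fors G R := by
      rw [Finset.filter_eq_self]
      intro f hf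
      rw [Pool.Agent.helper72.UT.mem_fors] at hf
      refine ⟨[], y, [], by simp, by simp, by simp, ?_⟩
      rw [List.mem_singleton]
      exact (hf.adj y hy).ne'
    have e2 : R ∪ ([y] : List V).toFinset = insert y R := by
      ext x; simp
    have e3 : dir K (fun x => 1 - u x) (fun x => 1 - u x) = dir K u u := by
      unfold dir
      congr 1
      apply Finset.sum_congr rfl
      intro x _
      apply Finset.sum_congr rfl
      intro z _
      ring
    rw [e2, e3] at h3
    rw [← h3]
    have e4 : ((fors G R).card : ℝ) = (((fors G R).filter (fun f => Cont f [y])).card : ℝ) := by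
      rw [e1]
    rw [e4]
  · intro x hx
    rw [hu.zero x hx, sub_zero]
  · intro x hx
    have : x = y := by simpa using hx
    rw [this, hu.one y (by simp), sub_self]
  · intro x hx hx2
    have hx3 : x ∉ ({y} : Finset V) := by simpa using hx2
    have := hu.harm x hx3 hx
    have e : ∑ z, K.p x z * (1 - u z) = 1 - ∑ z, K.p x z * u z := by
      simp only [mul_sub, mul_one]
      rw [Finset.sum_sub_distrib, K.sum_one]
    rw [e, ← this]

end Pool.Agent.helper66.FB
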