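import Pool.Agent.helper66.FB.Spec
import Pool.Agent.helper72.UT.Bridge
import Pool.Agent.helper20.HP.S0

/-!
Module fb:WI of the functional form of MP_5ae64c_pr (Wilson's algorithm).
-/

set_option autoImplicit false

open scoped BigOperators Topology
open Filter MeasureTheory

namespace Pool.Agent.helper66.FB

open Finset
open Pool.Agent.helper72.UT (IsFor dep pth rt fors Reg lz)
open Pool.Agent.helper20.HP (ind HW W Par cc run lel lst lazyP tmix ustE height vol Setup CZ CP IsKer Zq)
open Pool.Agent.helper90.FN (EF glue dn sk avJ Hit)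

theorem WI_ker_eq {V : Type} [Fintype V] [DecidableEq V] (K : HW V) (D : Finset V) (y : V)
    (φ : List V → ℝ) (t : ℕ) :
    W K t y (fun l => ind (∀ z ∈ l, z ∉ D) * φ (run [y] l)) =
      (Pool.Agent.helper72.UT.ker K.p D)^[t] φ [y] := by
  rw [Pool.Agent.helper72.UT.ker_iter_eq_W]
  refine Pool.Agent.helper20.HP.W_congr K t y fun l _ => ?_
  by_cases h : ∀ z ∈ l, z ∉ D
  · rw [Pool.Agent.helper20.HP.ind_true h, one_mul, if_pos h]
  · rw [Pool.Agent.helper20.HP.ind_false h, zero_mul, if_neg h]

theorem WI : WI_stmt := by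
  classical
  intro V _ _ G d K hreg hK D hD φ M hM
  have hc : ((fors G D).card : ℝ) ≠ 0 := by
    have := Finset.card_pos.2 (Pool.Agent.helper72.UT.fors_nonempty hreg.conn hD)
    exact_mod_cast this.ne'
  have h1 : ∀ y ∈ D, HasSum (fun t => W K t y (fun l => ind (∀ z ∈ l, z ∉ D) * φ (run [y] l)))
      (Pool.Agent.helper72.UT.pot G D y φ / ((fors G D).card : ℝ)) := by
    intro y hy
    have hs := Pool.Agent.helper72.UT.pot_hasSum G hreg.conn d hreg.pos (by
      intro v
      have := hreg.reg v
      convert this) D y hy φ M hM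
    have h2 := hs.div_const ((fors G D).card : ℝ)
    have e1 : (fun t => W K t y (fun l => ind (∀ z ∈ l, z ∉ D) * φ (run [y] l))) =
        fun t => ((fors G D).card : ℝ) *
          (Pool.Agent.helper72.UT.ker (lz G d) D)^[t] φ [y] / ((fors G D).card : ℝ) := by
      funext t
      rw [WI_ker_eq, hK, mul_div_assoc, mul_div_cancel₀ _ hc]
    rw [e1]
    exact h2
  have h3 := hasSum_sum h1
  have e : EF G D (fun g => ∑ v, φ (pth D g v)) =
      ∑ y ∈ D, Pool.Agent.helper72.UT.pot G D y φ / ((fors G D).card : ℝ) := by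
    rw [← Finset.sum_div]
    unfold EF Pool.Agent.helper72.UT.pot
    congr 1
    conv_rhs => rw [Finset.sum_comm]
    refine Finset.sum_congr rfl fun f hf => ?_
    have hf' : IsFor G D f := Pool.Agent.helper72.UT.mem_fors.1 hf
    have : ∀ y ∈ D, ∑ v ∈ univ.filter (fun v => rt D f v = y), φ (pth D f v) =
        ∑ v, if rt D f v = y then φ (pth D f v) else 0 := by
      intro y _
      rw [Finset.sum_filter]
    rw [Finset.sum_congr rfl this]
    conv_rhs => rw [Finset.sum_comm]
    refine Finset.sum_congr rfl fun v _ => ?_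
    rw [Finset.sum_ite_eq, if_pos (hf'.rt_mem_B v)]
  rw [e]
  exact h3

end Pool.Agent.helper66.FB
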